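import Pool.Agent.H43.CH2.Crit
import Pool.Agent.H43.CH2.Sharp

/-!
# MP_aaa807_co: graphs of maximum degree 4 in which every vertex of degree 4 has a neighbour of degree at most 3

The chromon of `v` under `c` is the set of the vertices `w` which can be reached from `v` by a walk all of
whose vertices have the colour of `v`. For this class of graphs the least `C` is exactly 4.
-/

set_option autoImplicit false

namespace Pool.Agent.Results.MP_aaa807_co.ExactFour

open Pool.Agent.H43.CH2
open scoped Classical

theorem degree_eq {V : Type} [Fintype V] (G : SimpleGraph V) [DecidableRel G.Adj] (v : V) :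
    dH G v = G.degree v := by
  rw [← SimpleGraph.card_neighborFinset_eq_degree]
  unfold dH
  congr 1
  ext w
  simp

/-- Upper bound: if every vertex of degree 4 has a neighbour of degree at most 3, then there is a
two-colouring all of whose chromons have at most 4 vertices. Lower bound: there is a graph with this
property, with 10 vertices, all of whose two-colourings have a chromon with at least 4 vertices. -/
theorem result :
    (∀ (V : Type) [Fintype V] (G : SimpleGraph V) [DecidableRel G.Adj], (∀ v, G.degree v ≤ 4) →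
      (∀ v, G.degree v = 4 → ∃ w, G.Adj v w ∧ G.degree w ≤ 3) →
      ∃ c : V → Bool, ∀ v, Nat.card {w // ∃ p : G.Walk v w, ∀ x ∈ p.support, c x = c v} ≤ 4) ∧
    (∃ (G : SimpleGraph (Fin 10)) (_ : DecidableRel G.Adj), (∀ v, G.degree v ≤ 4) ∧
      (∀ v, G.degree v = 4 → ∃ w, G.Adj v w ∧ G.degree w ≤ 3) ∧
      ∀ c : Fin 10 → Bool, ∃ v,
        4 ≤ Nat.card {w // ∃ p : G.Walk v w, ∀ x ∈ p.support, c x = c v}) := by
  refine ⟨?_, ⟨exG, inferInstance, ex_deg, ex_low, ex_not3⟩⟩
  intro V _ G _ hd hlow
  have hd' : ∀ v, dH G v ≤ 4 := fun v => by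
    rw [degree_eq]; exact hd v
  have hF := family_all G hd'
  have hr : ∀ v, G.degree v ≤ 3 → Rigid G {c | MinMono G c} v := fun v hv =>
    rigid_of_degree G hF (le_of_eq_of_le (degree_eq G v) hv)
  obtain ⟨c, -, hc⟩ := criterion4 G hd' hF (N := {v | ∃ w, G.Adj v w ∧ G.degree w ≤ 3})
    (fun v ⟨w, hw, h3⟩ => ⟨w, hw, hr w h3⟩) (fun _ => true)
    (fun a x b _ _ _ _ _ hx _ hxN _ _ => by
      apply hxN
      by_contra hcon
      apply hx
      apply hr
      have h4 : G.degree x ≠ 4 := fun h => hcon (hlow x h)
      have := hd x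
      omega)
  exact ⟨c, hc⟩

end Pool.Agent.Results.MP_aaa807_co.ExactFour
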