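import Pool.Agent.H13.CH.ADD
import Pool.Agent.H56.CH.CE
import Pool.Agent.H3.CH.CI
import Pool.Agent.H5.CH.COR
import Pool.Agent.H20.CH.CR
import Pool.Agent.H22.CH.CX
import Pool.Agent.H70.CH.D2
import Pool.Agent.H58.CH.D3
import Pool.Agent.H92.CH.DC
import Pool.Agent.H20.CH.E2
import Pool.Agent.H14.CH.EN
import Pool.Agent.H56.CH.ENC
import Pool.Agent.H30.CH.EX
import Pool.Agent.H49.CH.F1
import Pool.Agent.H30.CH.FA
import Pool.Agent.H12.CH.FB
import Pool.Agent.H20.CH.FC
import Pool.Agent.H17.CH.FSW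
import Pool.Agent.H73.CH.GC
import Pool.Agent.H3.CH.GP
import Pool.Agent.H5.CH.GT
import Pool.Agent.H87.CH.HS
import Pool.Agent.H3.CH.LB
import Pool.Agent.H3.CH.M1
import Pool.Agent.H56.CH.M2
import Pool.Agent.H50.CH.M3
import Pool.Agent.H14.CH.M4
import Pool.Agent.H42.CH.M5
import Pool.Agent.H23.CH.M6
import Pool.Agent.H73.CH.M7
import Pool.Agent.H73.CH.MAIN
import Pool.Agent.H77.CH.MAT
import Pool.Agent.H17.CH.N7
import Pool.Agent.H51.CH.OG
import Pool.Agent.H81.CH.RE
import Pool.Agent.H58.CH.ROT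
import Pool.Agent.H27.CH.SEL
import Pool.Agent.H56.CH.SEQ
import Pool.Agent.H67.CH.ST
import Pool.Agent.H58.CH.T1
import Pool.Agent.H5.CH.U
import Pool.Agent.H81.CH.VB
import Pool.Agent.H87.CH.W0
import Pool.Agent.H27.CH.W1
import Pool.Agent.H12.CH.W2
import Pool.Agent.H51.CH.W3
import Pool.Agent.H67.CH.W4
import Pool.Agent.H90.CH.W5
import Pool.Agent.H90.CH.Trans
import Pool.Agent.H54.CH.WPA
import Pool.Agent.H67.CH.WX
import Pool.Agent.H32.CH.CU
import Pool.Agent.H32.CH.Fin
import Pool.Agent.H32.CH.D1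

/-!
# Graphs of maximum degree 4 and odd girth at least 9 have two-colourings with chromons of order ≤ 5

First part: every finite graph of maximum degree at most 4 without odd cycles of length less than 9
has a two-colouring in which every monochromatic component (chromon) has at most 5 vertices.
Second part: for every `g` there is a graph of maximum degree at most 4 without odd cycles of length
less than `g` such that every two-colouring has a chromon with at least 4 vertices. So for every one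
of these classes the least value of `C` is 4 or 5.

Proof of the first part. Take a partition `A, B` of the vertices with the fewest monochromatic
edges, then with `|A|` largest, then with the fewest cyclic components of `G[A]` of length `1`
modulo `6`. The components of `G[B]` have at most 2 vertices, those of `G[A]` are paths and cycles.
A process which moves the components of `G[B]` with two vertices gives such a partition in which, on
every cycle of length `1` modulo `6`, the vertices adjacent to them lie close together. Then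
disjoint windows of three consecutive vertices are chosen on the long components of `G[A]`, and a
theorem of Fleischner and Stiebitz, for a linear forest on the windows, gives one vertex of each
window such that these vertices can be moved to `B`.
-/

set_option autoImplicit false

namespace Pool.Agent.Results.MP_aaa807_co.OddGirthNine

open Pool.Agent.H32.CH

theorem main : T_MAIN := by
  have ce : T_CE := Pool.Agent.H56.CH.pf_CE
  have ci : T_CI := Pool.Agent.H3.CH.CI.pf_CI ce
  have m1 : T_M1 := Pool.Agent.H3.CH.M1.pf_M1 ce ci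
  have m2 : T_M2 := Pool.Agent.H56.CH.pf_M2 ce ci
  have m3 : T_M3 := Pool.Agent.H50.CH.pf_M3 m1 m2
  have m4 : T_M4 := Pool.Agent.H14.CH.M4.pf_M4 m1 m2
  have m5 : T_M5 := Pool.Agent.H42.CH.M5.pf_M5 m1 m2
  have m6 : T_M6 := Pool.Agent.H23.CH.pf_M6 m1 m2
  have m7 : T_M7 := Pool.Agent.H73.CH.M7.pf_M7 m1 m2
  have u : T_U := Pool.Agent.H5.CH.U.pf_U m1 m2
  have hs : T_HS := Pool.Agent.H87.CH.pf_HS
  have cx : T_CX := Pool.Agent.H22.CH.CX.pf_CX
  have cu : T_CU := Pool.Agent.H32.CH.CU.pf_CU
  have dc : T_DC := Pool.Agent.H92.CH.DC.pf_DC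
  have cr : T_CR := Pool.Agent.H20.CH.CR.pf_CR hs
  have en : T_EN := Pool.Agent.H14.CH.EN.pf_EN
  have enc : T_ENC := Pool.Agent.H56.CH.pf_ENC en
  have e2 : T_E2 := Pool.Agent.H20.CH.E2.pf_E2 m1 m2
  have ex : T_EX := Pool.Agent.H30.CH.EX.pf_EX
  have fa : T_FA := Pool.Agent.H30.CH.FA.pf_FA m1
  have fb : T_FB := Pool.Agent.H12.CH.FB.pf_FB cr m1 dc
  have fc : T_FC := Pool.Agent.H20.CH.FC.pf_FC cr dc cu
  have f1 : T_F1 := Pool.Agent.H49.CH.F1.pf_F1 e2 fa fb fc cu
  have st : T_ST := Pool.Agent.H67.CH.ST.pf_ST f1 u cu cx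
  have t1 : T_T1 := Pool.Agent.H32.CH.pf_T1 ex st
  have cor : T_COR := Pool.Agent.H5.CH.COR.pf_COR
  have w0 : T_W0 := Pool.Agent.H87.CH.pf_W0 cor
  have w1 : T_W1 := Pool.Agent.H27.CH.W1.pf_W1 cor
  have w2 : T_W2 := Pool.Agent.H12.CH.W2.pf_W2 cor
  have w3 : T_W3 := Pool.Agent.H51.CH.pf_W3 cor
  have w4 : T_W4 := Pool.Agent.H67.CH.W4.pf_W4 cor
  have w5 : T_W5 := Pool.Agent.H90.CH.pf_W5 cor
  have rot : T_ROT := Pool.Agent.H32.CH.pf_ROT w1
  have wpa : T_WPA := Pool.Agent.H54.CH.WPA.pf_WPA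
  have gp : T_GP := Pool.Agent.H3.CH.GP.pf_GP
  have gc : T_GC := Pool.Agent.H73.CH.GC.pf_GC
  have wp : T_WP := Pool.Agent.H90.CH.pf_WP en wpa gp dc
  have wc : T_WC := Pool.Agent.H90.CH.pf_WC enc w0 w2 w3 w4 w5 gc dc
  have wx : T_WX := Pool.Agent.H67.CH.WX.pf_WX rot gc
  have n7 : T_N7 := Pool.Agent.H17.CH.N7.pf_N7 enc dc
  have d1 : T_D1 := Pool.Agent.H32.CH.D1.pf_D1 m3 m4 m2
  have d2 : T_D2 := Pool.Agent.H70.CH.D2.pf_D2 m3 m4 m5 m6
  have d3 : T_D3 := Pool.Agent.H32.CH.pf_D3 m4 m7
  have vb : T_VB := Pool.Agent.H81.CH.VB.pf_VB m3 m5 m2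
  have add : T_ADD := Pool.Agent.H13.CH.ADD.pf_ADD hs
  have seq : T_SEQ := Pool.Agent.H56.CH.pf_SEQ add
  have mat : T_MAT := Pool.Agent.H77.CH.MAT.pf_MAT cx cu en dc
  have gt : T_GT := Pool.Agent.H5.CH.GT.pf_GT mat seq
  have fsw : T_FSW := Pool.Agent.H17.CH.FSW.pf_FSW
  have sel : T_SEL :=
    Pool.Agent.H27.CH.SEL.pf_SEL wp wc wx n7 d1 d2 d3 gt fsw enc cx cu m1 dc
  exact Pool.Agent.H73.CH.MAIN.pf_MAIN t1 sel vb

/-- First part: a finite graph of maximum degree at most 4 without odd cycles of length less than 9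
has a two-colouring such that from every vertex at most 5 vertices can be reached by walks all of
whose vertices have the colour of the starting vertex. Second part: for every `g` there is a finite
graph of maximum degree at most 4 without odd cycles of length less than `g` such that for every
two-colouring at least 4 vertices can be reached in this way from some vertex. -/
theorem result :
    (∀ (V : Type) [Fintype V] (G : SimpleGraph V) [DecidableRel G.Adj],
      (∀ v, G.degree v ≤ 4) →
      (∀ (v : V) (p : G.Walk v v), p.IsCycle → Odd p.length → 9 ≤ p.length) →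
      ∃ c : V → Bool, ∀ v, Nat.card {w // ∃ p : G.Walk v w, ∀ x ∈ p.support, c x = c v} ≤ 5) ∧
    ∀ g : ℕ, ∃ (n : ℕ) (G : SimpleGraph (Fin n)) (_ : DecidableRel G.Adj),
      (∀ v, G.degree v ≤ 4) ∧
      (∀ (v : Fin n) (p : G.Walk v v), p.IsCycle → Odd p.length → g ≤ p.length) ∧
      ∀ c : Fin n → Bool, ∃ v,
        4 ≤ Nat.card {w // ∃ p : G.Walk v w, ∀ x ∈ p.support, c x = c v} :=
  ⟨fun V _ G i hd ho => first_part main Pool.Agent.H51.CH.pf_OG
      (Pool.Agent.H81.CH.RE.pf_RE Pool.Agent.H22.CH.CX.pf_CX) V G i hd ho,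
    fun g => second_part Pool.Agent.H3.CH.LB.pf_LB g⟩

end Pool.Agent.Results.MP_aaa807_co.OddGirthNine
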